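import Pool.Agent.H21.L.R_seed8.H723R3.EuclidDefs

set_option autoImplicit false
set_option linter.unusedSectionVars false

/-!
# Reflection descent for Euclidean lattices

Let `R` be a domain with finite quotients and fraction field `K`, let `Q` be an anisotropic
quadratic form on a `K`-vector space `V`, and let `L` be a Euclidean lattice in `V`.  Then every
integral lattice `M` in `V` is carried into `L` by an isometry of `V`.
-/

namespace Pool.Agent.H723R3

open scoped nonZeroDivisors


section Index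

variable {R : Type*} [CommRing R]

/-- The index of an ideal as an additive subgroup. -/
noncomputable def idx (I : Ideal R) : ℕ := I.toAddSubgroup.index

theorem idx_eq_card (I : Ideal R) : idx I = Nat.card (R ⧸ I) := rfl

theorem idx_ne_zero [Ring.HasFiniteQuotients R] {I : Ideal R} (h : I ≠ ⊥) : idx I ≠ 0 := by
  have := Ring.HasFiniteQuotients.finiteQuotient h
  rw [idx_eq_card]
  exact Nat.card_pos.ne'

theorem ringNorm_eq {x : R} (hx : x ≠ 0) : ringNorm R x = idx (Ideal.span {x}) := by
  rw [ringNorm, if_neg hx, idx_eq_card]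

theorem ringNorm_zero : ringNorm R (0 : R) = 0 := by
  rw [ringNorm, if_pos rfl]

theorem ringNorm_ne_zero [Ring.HasFiniteQuotients R] {x : R} (hx : x ≠ 0) : ringNorm R x ≠ 0 := by
  rw [ringNorm_eq hx]
  exact idx_ne_zero (by simpa using hx)

theorem ringNorm_pos [Ring.HasFiniteQuotients R] {x : R} (hx : x ≠ 0) : 0 < ringNorm R x :=
  Nat.pos_of_ne_zero (ringNorm_ne_zero hx)

/-- multiplying an ideal by a nonzero element multiplies the index by the norm. -/
theorem index_map_mul [IsDomain R] {s : R} (hs : s ≠ 0) (I : Ideal R) :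
    (I.toAddSubgroup.map (AddMonoidHom.mulLeft s)).index = idx I * ringNorm R s := by
  have hinj : Function.Injective (AddMonoidHom.mulLeft s) := by
    intro a b hab
    exact mul_left_cancel₀ hs (by simpa using hab)
  rw [AddSubgroup.index_map_of_injective _ hinj, ringNorm_eq hs, idx, idx]
  congr 2
  ext x
  simp only [AddMonoidHom.mem_range, AddMonoidHom.coe_mulLeft, Submodule.mem_toAddSubgroup,
    Ideal.mem_span_singleton']
  constructor
  · rintro ⟨a, rfl⟩
    exact ⟨a, mul_comm _ _⟩
  · rintro ⟨a, rfl⟩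
    exact ⟨a, mul_comm _ _⟩

theorem ringNorm_mul [IsDomain R] (a b : R) : ringNorm R (a * b) = ringNorm R a * ringNorm R b := by
  by_cases ha : a = 0
  · simp [ha, ringNorm_zero]
  by_cases hb : b = 0
  · simp [hb, ringNorm_zero]
  rw [ringNorm_eq (mul_ne_zero ha hb), ringNorm_eq hb, mul_comm (ringNorm R a),
    ← index_map_mul ha, idx]
  congr 1
  ext x
  simp only [Submodule.mem_toAddSubgroup, Ideal.mem_span_singleton', AddSubgroup.mem_map,
    AddMonoidHom.coe_mulLeft]
  constructor
  · rintro ⟨c, rfl⟩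
    exact ⟨c * b, ⟨c, rfl⟩, by ring⟩
  · rintro ⟨_, ⟨c, rfl⟩, rfl⟩
    exact ⟨c, by ring⟩

end Index

section Frac

variable {R : Type*} [CommRing R] [IsDomain R] [Ring.HasFiniteQuotients R]
  {K : Type*} [Field K] [Algebra R K] [IsFractionRing R K]

/-- The extended norm does not depend on the chosen fraction. -/
theorem fracNorm_div (a b : R) (hb : b ≠ 0) :
    fracNorm R K (algebraMap R K a / algebraMap R K b) = (ringNorm R a : ℚ) / ringNorm R b := by
  set x : K := algebraMap R K a / algebraMap R K b with hx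
  set c := (IsLocalization.sec R⁰ x).1 with hc
  set d : R := ((IsLocalization.sec R⁰ x).2 : R) with hd
  have hd0 : d ≠ 0 := nonZeroDivisors.ne_zero (IsLocalization.sec R⁰ x).2.2
  have hspec : x * algebraMap R K d = algebraMap R K c := IsLocalization.sec_spec R⁰ x
  have hbK : algebraMap R K b ≠ 0 := by
    simpa using hb
  have key : a * d = c * b := by
    apply IsFractionRing.injective R K
    rw [map_mul, map_mul, ← hspec, hx]
    field_simp
  have hn : ringNorm R a * ringNorm R d = ringNorm R c * ringNorm R b := by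
    rw [← ringNorm_mul, ← ringNorm_mul, key]
  have hd1 : (ringNorm R d : ℚ) ≠ 0 := by exact_mod_cast ringNorm_ne_zero hd0
  have hb1 : (ringNorm R b : ℚ) ≠ 0 := by exact_mod_cast ringNorm_ne_zero hb
  have hn' : (ringNorm R a : ℚ) * ringNorm R d = ringNorm R c * ringNorm R b := by exact_mod_cast hn
  rw [fracNorm, ← hc, ← hd, div_eq_div_iff hd1 hb1, hn']

theorem fracNorm_algebraMap (a : R) : fracNorm R K (algebraMap R K a) = ringNorm R a := by
  have h := fracNorm_div (K := K) a 1 one_ne_zero
  rw [map_one, div_one] at h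
  rw [h]
  have : ringNorm R (1 : R) = 1 := by
    rw [ringNorm_eq one_ne_zero, Ideal.span_singleton_one, idx_eq_card]
    have : Subsingleton (R ⧸ (⊤ : Ideal R)) := Ideal.Quotient.subsingleton_iff.2 rfl
    exact Nat.card_unique
  rw [this]
  simp

omit [IsDomain R] [Ring.HasFiniteQuotients R] in
theorem exists_div [IsDomain R] (x : K) : ∃ a b : R, b ≠ 0 ∧ x = algebraMap R K a / algebraMap R K b := by
  obtain ⟨a, b, hb, h⟩ := IsFractionRing.div_surjective (A := R) x
  exact ⟨a, b, nonZeroDivisors.ne_zero hb, h.symm⟩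

end Frac

section Descent

variable {R : Type*} [CommRing R] [IsDomain R] [Ring.HasFiniteQuotients R]
  {K : Type*} [Field K] [Algebra R K] [IsFractionRing R K]
  {V : Type*} [AddCommGroup V] [Module K V] [Module R V] [IsScalarTower R K V]

/-- The values of `Q` on the lattice `M` lie in `R`. -/
def IntegralOn (Q : QuadraticForm K V) (M : Submodule R V) : Prop :=
  ∀ x ∈ M, ∃ r : R, algebraMap R K r = Q x

/-- The annihilator of `v` modulo `L`. -/
def ordIdeal (L : Submodule R V) (v : V) : Ideal R where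
  carrier := {r | r • v ∈ L}
  add_mem' := by
    intro a b ha hb
    simp only [Set.mem_ofPred_eq] at *
    rw [add_smul]
    exact L.add_mem ha hb
  zero_mem' := by simp
  smul_mem' := by
    intro c a ha
    simp only [Set.mem_ofPred_eq, smul_eq_mul] at *
    rw [mul_smul]
    exact L.smul_mem c ha

theorem mem_ordIdeal {L : Submodule R V} {v : V} {r : R} : r ∈ ordIdeal L v ↔ r • v ∈ L := Iff.rfl

/-- index of `L` in `L + R v` -/
theorem relIndex_span (L : Submodule R V) (v : V) :
    L.toAddSubgroup.relIndex (Submodule.span R {v}).toAddSubgroup = idx (ordIdeal L v) := by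
  have h1 : (Submodule.span R {v}).toAddSubgroup =
      AddSubgroup.map (LinearMap.toSpanSingleton R V v).toAddMonoidHom ⊤ := by
    ext x
    simp [Submodule.mem_span_singleton]
  rw [h1, ← AddSubgroup.relIndex_comap, AddSubgroup.relIndex_top_right, idx]
  congr 1

variable {Q : QuadraticForm K V} {L M : Submodule R V}

theorem polar_integral {N : Submodule R V} (hN : IntegralOn Q N) {x y : V} (hx : x ∈ N)
    (hy : y ∈ N) : ∃ r : R, algebraMap R K r = QuadraticMap.polar Q x y := by
  obtain ⟨a, ha⟩ := hN _ (N.add_mem hx hy)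
  obtain ⟨b, hb⟩ := hN _ hx
  obtain ⟨c, hc⟩ := hN _ hy
  exact ⟨a - b - c, by rw [map_sub, map_sub, ha, hb, hc, QuadraticMap.polar]⟩

/-- The reflection in an anisotropic vector. -/
noncomputable def refl (Q : QuadraticForm K V) (w : V) (hw : Q w ≠ 0) : V ≃ₗ[K] V :=
  Module.reflection (x := w) (f := (Q w)⁻¹ • Q.polarBilin w) (by
    simp only [LinearMap.smul_apply, QuadraticMap.polarBilin_apply_apply, QuadraticMap.polar_self,
      smul_eq_mul, nsmul_eq_mul]
    field_simp
    simp)

theorem refl_apply (w : V) (hw : Q w ≠ 0) (x : V) :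
    refl Q w hw x = x - ((Q w)⁻¹ * QuadraticMap.polar Q w x) • w := by
  rw [refl, Module.reflection_apply]
  simp

theorem refl_isometry (w : V) (hw : Q w ≠ 0) (x : V) : Q (refl Q w hw x) = Q x := by
  rw [refl_apply, sub_eq_add_neg, QuadraticMap.map_add (⇑Q), QuadraticMap.map_neg,
    QuadraticMap.map_smul, QuadraticMap.polar_neg_right, QuadraticMap.polar_smul_right,
    QuadraticMap.polar_comm Q x w]
  simp only [smul_eq_mul]
  field_simp
  ring

theorem refl_refl (w : V) (hw : Q w ≠ 0) (x : V) : refl Q w hw (refl Q w hw x) = x := by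
  rw [refl]
  exact Module.involutive_reflection _ x

/-- The algebraic identity behind the descent. -/
theorem refl_mem (hL : IntegralOn Q L) (hM : IntegralOn Q M) {m y : V} (hm : m ∈ M) (hy : y ∈ L)
    (hw : Q (m - y) ≠ 0) {x : V} (hx : x ∈ (M ⊓ L) ⊔ Submodule.span R {m}) :
    refl Q (m - y) hw x ∈ L ⊔ Submodule.span R {(Q (m - y))⁻¹ • (m - y)} := by
  obtain ⟨n, hn, z, hz, rfl⟩ := Submodule.mem_sup.1 hx
  obtain ⟨a, rfl⟩ := Submodule.mem_span_singleton.1 hz
  obtain ⟨c1, hc1⟩ := polar_integral hM hm hn.1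
  obtain ⟨c2, hc2⟩ := polar_integral hL hy hn.2
  obtain ⟨c3, hc3⟩ := hM _ hm
  obtain ⟨c4, hc4⟩ := hL _ hy
  set w := m - y with hwdef
  have hQw : Q w = Q m + Q y - QuadraticMap.polar Q m y := by
    rw [hwdef, sub_eq_add_neg, QuadraticMap.map_add (⇑Q), QuadraticMap.map_neg,
      QuadraticMap.polar_neg_right]
    ring
  have hb : QuadraticMap.polar Q w (n + a • m) =
      algebraMap R K (c1 - c2 + a * (c3 - c4)) + algebraMap R K a * Q w := by
    have e1 : QuadraticMap.polar Q w n = algebraMap R K c1 - algebraMap R K c2 := by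
      rw [hwdef, QuadraticMap.polar_sub_left, hc1, hc2]
    have e2 : QuadraticMap.polar Q w m = Q w + Q m - Q y := by
      rw [hQw, hwdef, QuadraticMap.polar_sub_left, QuadraticMap.polar_self,
        QuadraticMap.polar_comm Q y m]
      simp only [nsmul_eq_mul]
      ring
    have e3 : QuadraticMap.polar Q w (a • m) = algebraMap R K a * QuadraticMap.polar Q w m := by
      rw [← algebraMap_smul K a m, QuadraticMap.polar_smul_right, smul_eq_mul]
    rw [QuadraticMap.polar_add_right, e1, e3, e2, ← hc3, ← hc4]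
    simp only [map_add, map_sub, map_mul]
    ring
  have key : refl Q w hw (n + a • m) =
      (n + a • y) + (-(c1 - c2 + a * (c3 - c4))) • ((Q w)⁻¹ • w) := by
    rw [refl_apply, hb]
    have h1 : (Q w)⁻¹ * (algebraMap R K (c1 - c2 + a * (c3 - c4)) + algebraMap R K a * Q w) =
        algebraMap R K (c1 - c2 + a * (c3 - c4)) * (Q w)⁻¹ + algebraMap R K a := by
      field_simp
    rw [h1, add_smul, mul_smul, algebraMap_smul, algebraMap_smul, neg_smul]
    have h2 : a • w = a • m - a • y := by rw [hwdef, smul_sub]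
    rw [h2]
    abel
  rw [key]
  refine Submodule.add_mem_sup ?_ ?_
  · exact L.add_mem hn.2 (L.smul_mem _ hy)
  · exact Submodule.smul_mem _ _ (Submodule.mem_span_singleton_self _)

theorem idx_lt (hL : IntegralOn Q L) (hM : IntegralOn Q M) {m y : V} (hm : m ∈ M) (hy : y ∈ L)
    (hw : Q (m - y) ≠ 0) (hnorm : fracNorm R K (Q (m - y)) < 1)
    (hfin : ∀ v : V, ordIdeal L v ≠ ⊥) :
    idx (ordIdeal L ((Q (m - y))⁻¹ • (m - y))) < idx (ordIdeal L m) := by
  set w := m - y with hwdef
  obtain ⟨s, t, ht, hst⟩ := exists_div (R := R) (Q w)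
  have htK : algebraMap R K t ≠ 0 := by simpa using ht
  have hs : s ≠ 0 := by
    rintro rfl
    rw [map_zero, zero_div] at hst
    exact hw hst
  have hlt : ringNorm R s < ringNorm R t := by
    rw [hst, fracNorm_div _ _ ht, div_lt_one (by exact_mod_cast ringNorm_pos ht)] at hnorm
    exact_mod_cast hnorm
  have hle : (ordIdeal L m).toAddSubgroup.map (AddMonoidHom.mulLeft s) ≤
      (ordIdeal L ((Q w)⁻¹ • w)).toAddSubgroup.map (AddMonoidHom.mulLeft t) := by
    rintro _ ⟨a, ha, rfl⟩
    have ha' : a • m ∈ L := ha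
    -- `a * Q w` is integral
    have hQw : Q w = Q m + Q y - QuadraticMap.polar Q m y := by
      rw [hwdef, sub_eq_add_neg, QuadraticMap.map_add (⇑Q), QuadraticMap.map_neg,
        QuadraticMap.polar_neg_right]
      ring
    obtain ⟨c3, hc3⟩ := hM _ hm
    obtain ⟨c4, hc4⟩ := hL _ hy
    obtain ⟨c5, hc5⟩ := polar_integral hL ha' hy
    have hr : algebraMap R K (a * (c3 + c4) - c5) = algebraMap R K a * Q w := by
      rw [hQw, ← hc3, ← hc4, map_sub, map_mul, map_add, hc5, ← algebraMap_smul K a m,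
        QuadraticMap.polar_smul_left, smul_eq_mul]
      ring
    refine ⟨a * (c3 + c4) - c5, ?_, ?_⟩
    · change (a * (c3 + c4) - c5) • ((Q w)⁻¹ • w) ∈ L
      rw [← algebraMap_smul K, hr, smul_smul, mul_assoc, mul_inv_cancel₀ hw, mul_one,
        algebraMap_smul, hwdef, smul_sub]
      exact L.sub_mem ha' (L.smul_mem _ hy)
    · apply IsFractionRing.injective R K
      simp only [AddMonoidHom.coe_mulLeft]
      rw [map_mul, hr, hst, map_mul]
      field_simp
  have h1 : ((ordIdeal L m).toAddSubgroup.map (AddMonoidHom.mulLeft s)).index ≠ 0 := by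
    rw [index_map_mul hs]
    exact mul_ne_zero (idx_ne_zero (hfin _)) (ringNorm_ne_zero hs)
  have h2 := Nat.le_of_dvd (Nat.pos_of_ne_zero h1) (AddSubgroup.index_dvd_of_le hle)
  rw [index_map_mul hs, index_map_mul ht] at h2
  by_contra hcon
  push Not at hcon
  have h3 : idx (ordIdeal L m) * ringNorm R s < idx (ordIdeal L m) * ringNorm R t :=
    Nat.mul_lt_mul_of_pos_left hlt (Nat.pos_of_ne_zero (idx_ne_zero (hfin _)))
  have h4 : idx (ordIdeal L m) * ringNorm R t ≤
      idx (ordIdeal L ((Q w)⁻¹ • w)) * ringNorm R t := Nat.mul_le_mul_right _ hcon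
  omega

/-- One step of the descent. -/
theorem descent_step (hL : IntegralOn Q L) (hM : IntegralOn Q M) {m y : V} (hm : m ∈ M)
    (hy : y ∈ L) (hw : Q (m - y) ≠ 0) (hnorm : fracNorm R K (Q (m - y)) < 1)
    (hfin : ∀ v : V, ordIdeal L v ≠ ⊥)
    (hLM : L.toAddSubgroup.relIndex M.toAddSubgroup ≠ 0) :
    let M' := M.map ((refl Q (m - y) hw).toLinearMap.restrictScalars R)
    L.toAddSubgroup.relIndex M'.toAddSubgroup ≠ 0 ∧
      L.toAddSubgroup.relIndex M'.toAddSubgroup < L.toAddSubgroup.relIndex M.toAddSubgroup := by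
  intro M'
  set w := m - y with hwdef
  set σ := (refl Q w hw).toLinearMap.restrictScalars R with hσ
  set N1 : Submodule R V := (M ⊓ L) ⊔ Submodule.span R {m} with hN1
  have hN1M : N1 ≤ M := sup_le inf_le_left (by simpa [Submodule.span_le] using hm)
  have hM' : M'.toAddSubgroup = M.toAddSubgroup.map σ.toAddMonoidHom := rfl
  set H : AddSubgroup V := L.toAddSubgroup.comap σ.toAddMonoidHom with hH
  have e1 : L.toAddSubgroup.relIndex M'.toAddSubgroup = H.relIndex M.toAddSubgroup := by
    rw [hM', ← AddSubgroup.relIndex_comap]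
  -- the index of `M ⊓ L` in `M`
  have e2 : L.toAddSubgroup.relIndex M.toAddSubgroup =
      idx (ordIdeal L m) * N1.toAddSubgroup.relIndex M.toAddSubgroup := by
    have a1 : L.toAddSubgroup.relIndex M.toAddSubgroup =
        (M ⊓ L).toAddSubgroup.relIndex M.toAddSubgroup := by
      have : (M ⊓ L).toAddSubgroup = M.toAddSubgroup ⊓ L.toAddSubgroup := rfl
      rw [this, AddSubgroup.inf_relIndex_left]
    have a2 : (M ⊓ L).toAddSubgroup.relIndex N1.toAddSubgroup *
        N1.toAddSubgroup.relIndex M.toAddSubgroup =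
        (M ⊓ L).toAddSubgroup.relIndex M.toAddSubgroup :=
      AddSubgroup.relIndex_mul_relIndex _ _ _ (fun x hx => (le_sup_left : M ⊓ L ≤ N1) hx)
        (fun x hx => hN1M hx)
    have a3 : (M ⊓ L).toAddSubgroup.relIndex N1.toAddSubgroup = idx (ordIdeal L m) := by
      have b1 : N1.toAddSubgroup = (M ⊓ L).toAddSubgroup ⊔ (Submodule.span R {m}).toAddSubgroup := by
        rw [hN1]
        exact Submodule.sup_toAddSubgroup _ _
      rw [b1, AddSubgroup.relIndex_sup_left, relIndex_span]
      congr 1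
      ext r
      simp only [mem_ordIdeal, Submodule.mem_inf]
      exact ⟨fun h => h.2, fun h => ⟨M.smul_mem _ hm, h⟩⟩
    rw [a1, ← a2, a3]
  -- the index of `H ⊓ N1` in `N1`
  have e3 : H.relIndex N1.toAddSubgroup ≤ idx (ordIdeal L ((Q w)⁻¹ • w)) ∧
      H.relIndex N1.toAddSubgroup ≠ 0 := by
    have b1 : H.relIndex N1.toAddSubgroup =
        L.toAddSubgroup.relIndex (N1.toAddSubgroup.map σ.toAddMonoidHom) := by
      rw [hH, AddSubgroup.relIndex_comap]
    have b2 : N1.toAddSubgroup.map σ.toAddMonoidHom ≤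
        (L ⊔ Submodule.span R {(Q w)⁻¹ • w}).toAddSubgroup := by
      rintro _ ⟨x, hx, rfl⟩
      exact refl_mem hL hM hm hy hw hx
    have b3 : L.toAddSubgroup.relIndex (L ⊔ Submodule.span R {(Q w)⁻¹ • w}).toAddSubgroup =
        idx (ordIdeal L ((Q w)⁻¹ • w)) := by
      have : (L ⊔ Submodule.span R {(Q w)⁻¹ • w}).toAddSubgroup =
          L.toAddSubgroup ⊔ (Submodule.span R {(Q w)⁻¹ • w}).toAddSubgroup :=
        Submodule.sup_toAddSubgroup _ _
      rw [this, AddSubgroup.relIndex_sup_left, relIndex_span]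
    have b4 : L.toAddSubgroup.relIndex (L ⊔ Submodule.span R {(Q w)⁻¹ • w}).toAddSubgroup ≠ 0 := by
      rw [b3]
      exact idx_ne_zero (hfin _)
    rw [b1]
    refine ⟨?_, ?_⟩
    · rw [← b3]
      exact AddSubgroup.relIndex_le_of_le_right b2 b4
    · intro h0
      exact b4 (AddSubgroup.relIndex_eq_zero_of_le_right b2 h0)
  have hlt := idx_lt hL hM hm hy hw hnorm hfin
  have hN1ne : N1.toAddSubgroup.relIndex M.toAddSubgroup ≠ 0 := by
    intro h0
    rw [e2, h0, mul_zero] at hLM
    exact hLM rfl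
  have e4 : (H ⊓ N1.toAddSubgroup).relIndex M.toAddSubgroup =
      H.relIndex N1.toAddSubgroup * N1.toAddSubgroup.relIndex M.toAddSubgroup := by
    rw [← AddSubgroup.relIndex_inf_mul_relIndex]
    congr 2
    exact inf_eq_left.2 (fun x hx => hN1M hx)
  have e5 : (H ⊓ N1.toAddSubgroup).relIndex M.toAddSubgroup ≠ 0 := by
    rw [e4]
    exact mul_ne_zero e3.2 hN1ne
  have e6 : H.relIndex M.toAddSubgroup ≤ (H ⊓ N1.toAddSubgroup).relIndex M.toAddSubgroup :=
    AddSubgroup.relIndex_le_of_le_left inf_le_left e5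
  have e7 : H.relIndex M.toAddSubgroup ≠ 0 := by
    intro h0
    exact e5 (AddSubgroup.relIndex_eq_zero_of_le_left inf_le_left h0)
  refine ⟨by rw [e1]; exact e7, ?_⟩
  rw [e1, e2]
  refine lt_of_le_of_lt (e6.trans (le_of_eq e4)) ?_
  exact lt_of_le_of_lt (Nat.mul_le_mul_right _ e3.1)
    (Nat.mul_lt_mul_of_pos_right hlt (Nat.pos_of_ne_zero hN1ne))

/-- **Descent theorem.** If `L` is a Euclidean lattice of the anisotropic space `(V, Q)` then every
integral lattice is carried into `L` by an isometry of `V`. -/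
theorem exists_isometry_le (hanis : ∀ x : V, Q x = 0 → x = 0) (hL : IntegralOn Q L)
    (hfin : ∀ v : V, ordIdeal L v ≠ ⊥)
    (heucl : ∀ x : V, ∃ y ∈ L, fracNorm R K (Q (x - y)) < 1) :
    ∀ (k : ℕ) (M : Submodule R V), IntegralOn Q M →
      L.toAddSubgroup.relIndex M.toAddSubgroup ≠ 0 →
      L.toAddSubgroup.relIndex M.toAddSubgroup = k →
      ∃ g : V ≃ₗ[K] V, (∀ x, Q (g x) = Q x) ∧ ∀ x ∈ M, g x ∈ L := by
  intro k
  induction k using Nat.strong_induction_on with
  | _ k ih =>
    intro M hM hne hk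
    by_cases hML : M ≤ L
    · exact ⟨LinearEquiv.refl K V, fun x => rfl, fun x hx => hML hx⟩
    · obtain ⟨m, hm, hmL⟩ := Set.not_subset.1 hML
      obtain ⟨y, hy, hlt⟩ := heucl m
      have hw : Q (m - y) ≠ 0 := by
        intro h0
        have := hanis _ h0
        rw [sub_eq_zero] at this
        exact hmL (this ▸ hy)
      have hstep := descent_step hL hM hm hy hw hlt hfin hne
      obtain ⟨h1, h2⟩ := hstep
      have hM' : IntegralOn Q (M.map ((refl Q (m - y) hw).toLinearMap.restrictScalars R)) := by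
        rintro _ ⟨x, hx, rfl⟩
        obtain ⟨r, hr⟩ := hM x hx
        exact ⟨r, by rw [hr]; exact (refl_isometry _ hw x).symm⟩
      obtain ⟨g, hg1, hg2⟩ := ih _ (hk ▸ h2) _ hM' h1 rfl
      refine ⟨(refl Q (m - y) hw).trans g, ?_, ?_⟩
      · intro x
        rw [LinearEquiv.trans_apply, hg1, refl_isometry]
      · intro x hx
        rw [LinearEquiv.trans_apply]
        exact hg2 _ ⟨x, hx, rfl⟩

/-- Finitely generated submodules have finite index over a full lattice. -/
theorem relIndex_ne_zero_of_fg (hfin : ∀ v : V, ordIdeal L v ≠ ⊥) (M : Submodule R V)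
    (hM : M.FG) : L.toAddSubgroup.relIndex M.toAddSubgroup ≠ 0 := by
  induction M, hM using Submodule.fg_induction with
  | singleton v =>
    rw [relIndex_span]
    exact idx_ne_zero (hfin v)
  | sup A B _ _ hA hB =>
    have e : (A ⊔ B).toAddSubgroup = A.toAddSubgroup ⊔ B.toAddSubgroup :=
      Submodule.sup_toAddSubgroup _ _
    have h1 : L.toAddSubgroup.relIndex (L.toAddSubgroup ⊔ A.toAddSubgroup) ≠ 0 := by
      rwa [AddSubgroup.relIndex_sup_left]
    have h2 : (L.toAddSubgroup ⊔ A.toAddSubgroup).relIndex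
        ((L.toAddSubgroup ⊔ A.toAddSubgroup) ⊔ B.toAddSubgroup) ≠ 0 := by
      rw [AddSubgroup.relIndex_sup_left]
      intro h0
      exact hB (AddSubgroup.relIndex_eq_zero_of_le_left le_sup_left h0)
    have h3 := AddSubgroup.relIndex_ne_zero_trans h1 h2
    intro h0
    rw [e] at h0
    refine h3 (AddSubgroup.relIndex_eq_zero_of_le_right ?_ h0)
    rw [sup_assoc]
    exact le_sup_right

end Descent

end Pool.Agent.H723R3
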