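import Pool.Agent.H21.L.R_seed8.H723R3.EuclidDescent

set_option autoImplicit false
set_option linter.unusedSectionVars false

/-!
# Local tools: quadratic forms over completions, lattices, strong approximation at one prime
-/

namespace Pool.Agent.H723R3

open IsDedekindDomain

section Form

variable {R : Type*} [CommRing R] {n : ℕ}

/-- The quadratic form as a bundled object. -/
noncomputable def formQ (a : Matrix (Fin n) (Fin n) R) (A : Type*) [CommRing A] [Algebra R A] :
    QuadraticForm A (Fin n → A) :=
  (Matrix.toBilin' (a.map (algebraMap R A))).toQuadraticMap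

theorem formQ_apply (a : Matrix (Fin n) (Fin n) R) {A : Type*} [CommRing A] [Algebra R A]
    (x : Fin n → A) : formQ a A x = formVal a x := by
  rw [formQ, LinearMap.BilinMap.toQuadraticMap_apply, Matrix.toBilin'_apply, formVal]
  refine Finset.sum_congr rfl fun i _ => Finset.sum_congr rfl fun j _ => ?_
  rw [Matrix.map_apply]
  ring

theorem formVal_map (a : Matrix (Fin n) (Fin n) R) {A B : Type*} [CommRing A] [Algebra R A]
    [CommRing B] [Algebra R B] [Algebra A B] [IsScalarTower R A B] (x : Fin n → A) :
    formVal a (fun i => algebraMap A B (x i)) = algebraMap A B (formVal a x) := by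
  simp only [formVal, map_sum, map_mul, ← IsScalarTower.algebraMap_apply]

end Form

section
variable {R : Type*} [CommRing R] {n : ℕ}
theorem mem_stdLattice {K : Type*} [Field K] [Algebra R K] {x : Fin n → K} :
    x ∈ stdLattice R n K ↔ ∀ i, ∃ r : R, algebraMap R K r = x i := Iff.rfl

end

section Valuations

variable {R : Type*} [CommRing R] [IsDedekindDomain R]
  {K : Type*} [Field K] [Algebra R K] [IsFractionRing R K]

theorem valued_algebraMap (v : HeightOneSpectrum R) (k : K) :
    Valued.v (algebraMap K (v.adicCompletion K) k) = v.valuation K k := by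
  rw [HeightOneSpectrum.algebraMap_adicCompletion]
  exact HeightOneSpectrum.valuedAdicCompletion_eq_valuation' v k

theorem algebraMap_mem_iff (v : HeightOneSpectrum R) (k : K) :
    algebraMap K (v.adicCompletion K) k ∈ v.adicCompletionIntegers K ↔ v.valuation K k ≤ 1 := by
  rw [HeightOneSpectrum.mem_adicCompletionIntegers, valued_algebraMap]

theorem algebraMap_R_mem (v : HeightOneSpectrum R) (r : R) :
    algebraMap R (v.adicCompletion K) r ∈ v.adicCompletionIntegers K := by
  rw [IsScalarTower.algebraMap_apply R K (v.adicCompletion K), algebraMap_mem_iff]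
  exact HeightOneSpectrum.valuation_le_one v r

/-- approximation of an element of the completion by elements of `K` -/
theorem exists_approx (v : HeightOneSpectrum R) (ξ : v.adicCompletion K)
    (γ : (WithZero (Multiplicative ℤ))ˣ) :
    ∃ k : K, Valued.v (algebraMap K (v.adicCompletion K) k - ξ) < (γ : WithZero (Multiplicative ℤ)) := by
  have hopen : IsOpen {y : v.adicCompletion K | Valued.v (y - ξ) < (γ : WithZero (Multiplicative ℤ))} := by
    have h1 : IsOpen {y : v.adicCompletion K | Valued.v y < (γ : WithZero (Multiplicative ℤ))} := by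
      obtain ⟨η, hη⟩ := HeightOneSpectrum.valuedAdicCompletion_surjective K v
        (γ : WithZero (Multiplicative ℤ))
      have h2 := Valued.isOpen_ball (v.adicCompletion K)
        ((Valued.v (R := v.adicCompletion K)).restrict η)
      have h3 : {y : v.adicCompletion K | Valued.v y < (γ : WithZero (Multiplicative ℤ))} =
          {y : v.adicCompletion K | (Valued.v (R := v.adicCompletion K)).restrict y <
            (Valued.v (R := v.adicCompletion K)).restrict η} := by
        ext y
        change _ ↔ (Valued.v (R := v.adicCompletion K)).restrict y <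
            (Valued.v (R := v.adicCompletion K)).restrict η
        rw [Valuation.restrict_lt_iff, hη]
        exact Iff.rfl
      rw [h3]
      exact h2
    exact h1.preimage (continuous_id.sub continuous_const)
  obtain ⟨k, hk⟩ := (HeightOneSpectrum.denseRange_algebraMap K v).exists_mem_open hopen
    ⟨ξ, by simp⟩
  exact ⟨k, hk⟩

/-- approximation of an element of `R_v` by elements of `R` -/
theorem exists_approx_int (v : HeightOneSpectrum R) {ξ : v.adicCompletion K}
    (hξ : ξ ∈ v.adicCompletionIntegers K) (γ : (WithZero (Multiplicative ℤ))ˣ) :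
    ∃ r : R, Valued.v (algebraMap R (v.adicCompletion K) r - ξ) <
      (γ : WithZero (Multiplicative ℤ)) := by
  obtain ⟨k, hk⟩ := exists_approx v ξ (γ ⊓ 1)
  have hk1 : Valued.v (algebraMap K (v.adicCompletion K) k - ξ) < (γ : WithZero (Multiplicative ℤ)) :=
    lt_of_lt_of_le hk (by exact_mod_cast inf_le_left)
  have hk2 : Valued.v (algebraMap K (v.adicCompletion K) k - ξ) ≤ 1 :=
    le_of_lt (lt_of_lt_of_le hk (by exact_mod_cast inf_le_right))
  have hkv : v.valuation K k ≤ 1 := by
    rw [← valued_algebraMap]
    have : algebraMap K (v.adicCompletion K) k =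
        (algebraMap K (v.adicCompletion K) k - ξ) + ξ := by ring
    rw [this]
    refine (Valuation.map_add _ _ _).trans (max_le hk2 ?_)
    exact (HeightOneSpectrum.mem_adicCompletionIntegers R K v).1 hξ
  obtain ⟨r, hr⟩ := v.exists_valuation_sub_lt_of_integer hkv γ
  refine ⟨r, ?_⟩
  have : algebraMap R (v.adicCompletion K) r - ξ =
      algebraMap K (v.adicCompletion K) (algebraMap R K r - k) +
      (algebraMap K (v.adicCompletion K) k - ξ) := by
    rw [map_sub, ← IsScalarTower.algebraMap_apply]
    ring
  rw [this]
  refine lt_of_le_of_lt (Valuation.map_add _ _ _) (max_lt ?_ hk1)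
  rw [valued_algebraMap]
  exact hr

/-- Strong approximation at one prime. -/
theorem exists_approx_strong (v : HeightOneSpectrum R) (ξ : v.adicCompletion K) :
    ∃ k : K, algebraMap K (v.adicCompletion K) k - ξ ∈ v.adicCompletionIntegers K ∧
      ∀ w : HeightOneSpectrum R, w ≠ v → w.valuation K k ≤ 1 := by
  obtain ⟨k, hk⟩ := exists_approx v ξ 1
  obtain ⟨a, b, hb, rfl⟩ := exists_div (R := R) k
  have hbK : algebraMap R K b ≠ 0 := by simpa using hb
  have hspan : Ideal.span {b} ≠ (0 : Ideal R) := by simpa using hb
  have hfin : FiniteMultiplicity v.asIdeal (Ideal.span {b}) :=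
    FiniteMultiplicity.of_prime_left v.prime hspan
  obtain ⟨J, hJ, hvJ⟩ := hfin.exists_eq_pow_mul_and_not_dvd
  set N := multiplicity v.asIdeal (Ideal.span {b}) with hN
  have hJv : ¬ J ≤ v.asIdeal := fun h => hvJ (Ideal.dvd_iff_le.2 h)
  have hmax : v.asIdeal.IsMaximal := v.isMaximal
  have hcop : IsCoprime (v.asIdeal ^ N) J := by
    apply IsCoprime.pow_left
    rw [Ideal.isCoprime_iff_sup_eq]
    by_contra hne
    exact hJv (le_sup_right.trans (hmax.eq_of_le hne le_sup_left).ge)
  obtain ⟨p, hp, c, hc, hpc⟩ := Ideal.isCoprime_iff_exists.1 hcop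
  obtain ⟨j, hjJ, hjv⟩ := Set.not_subset.1 hJv
  have hmulmem : ∀ {x y : R}, x ∈ v.asIdeal ^ N → y ∈ J → ∃ r, x * y = r * b := by
    intro x y hx hy
    have : x * y ∈ Ideal.span {b} := by
      rw [hJ]
      exact Ideal.mul_mem_mul hx hy
    obtain ⟨r, hr⟩ := Ideal.mem_span_singleton'.1 this
    exact ⟨r, hr.symm⟩
  refine ⟨algebraMap R K c * (algebraMap R K a / algebraMap R K b), ?_, ?_⟩
  · have hsub : algebraMap K (v.adicCompletion K)
          (algebraMap R K c * (algebraMap R K a / algebraMap R K b)) - ξ =
        algebraMap K (v.adicCompletion K)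
          (-(algebraMap R K p * (algebraMap R K a / algebraMap R K b))) +
        (algebraMap K (v.adicCompletion K) (algebraMap R K a / algebraMap R K b) - ξ) := by
      have h1 : algebraMap R K c * (algebraMap R K a / algebraMap R K b) =
          -(algebraMap R K p * (algebraMap R K a / algebraMap R K b)) +
          algebraMap R K a / algebraMap R K b := by
        have : algebraMap R K c = 1 - algebraMap R K p := by
          rw [← map_one (algebraMap R K), ← hpc]
          simp
        rw [this]
        ring
      rw [h1, map_add]
      ring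
    rw [hsub]
    refine add_mem ?_ ?_
    · rw [map_neg, neg_mem_iff, algebraMap_mem_iff]
      obtain ⟨r, hr⟩ := hmulmem hp hjJ
      have h2 : algebraMap R K p * (algebraMap R K a / algebraMap R K b) * algebraMap R K j =
          algebraMap R K (r * a) := by
        have : algebraMap R K p * algebraMap R K j = algebraMap R K r * algebraMap R K b := by
          rw [← map_mul, hr, map_mul]
        rw [map_mul]
        calc _ = (algebraMap R K p * algebraMap R K j) * (algebraMap R K a / algebraMap R K b) := by
              ring
          _ = _ := by rw [this]; field_simp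
      have h3 : v.valuation K (algebraMap R K j) = 1 :=
        HeightOneSpectrum.valuation_eq_one_iff_notMem v |>.2 hjv
      have h4 := congrArg (v.valuation K) h2
      rw [map_mul, h3, mul_one] at h4
      rw [h4]
      exact HeightOneSpectrum.valuation_le_one v _
    · rw [HeightOneSpectrum.mem_adicCompletionIntegers]
      exact le_of_lt (by simpa using hk)
  · intro w hw
    have hnot : ¬ v.asIdeal ^ N ≤ w.asIdeal := by
      intro h
      have h1 : v.asIdeal ≤ w.asIdeal := w.isPrime.le_of_pow_le h
      have h2 := hmax.eq_of_le w.isMaximal.ne_top h1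
      exact hw (HeightOneSpectrum.ext h2.symm)
    obtain ⟨q, hq, hqw⟩ := Set.not_subset.1 hnot
    obtain ⟨r, hr⟩ := hmulmem hq hc
    have h2 : algebraMap R K c * (algebraMap R K a / algebraMap R K b) * algebraMap R K q =
        algebraMap R K (r * a) := by
      have : algebraMap R K q * algebraMap R K c = algebraMap R K r * algebraMap R K b := by
        rw [← map_mul, hr, map_mul]
      rw [map_mul]
      calc _ = (algebraMap R K q * algebraMap R K c) * (algebraMap R K a / algebraMap R K b) := by
            ring
        _ = _ := by rw [this]; field_simp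
    have h3 : w.valuation K (algebraMap R K q) = 1 :=
      HeightOneSpectrum.valuation_eq_one_iff_notMem w |>.2 hqw
    have h4 := congrArg (w.valuation K) h2
    rw [map_mul, h3, mul_one] at h4
    rw [h4]
    exact HeightOneSpectrum.valuation_le_one w _

end Valuations

end Pool.Agent.H723R3
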